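import Pool.Agent.Q186.DT.Stm

/-!
# Project DT of helper186: energy equality from time zero (job TE0)
-/

set_option autoImplicit false

namespace Pool.Agent.Q208.DT

open Set Filter Topology MeasureTheory Pool.Agent.Q186.DT

theorem sm_mono {K : ℕ} {f g : Nd K → ℝ} (N : ℕ) (h : ∀ w, f w ≤ g w) : sm N f ≤ sm N g :=
  Finset.sum_le_sum fun _ _ => Finset.sum_le_sum fun w _ => h w

theorem sm_add {K : ℕ} (f g : Nd K → ℝ) (N : ℕ) : sm N (fun w => f w + g w) = sm N f + sm N g := by
  unfold sm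
  rw [← Finset.sum_add_distrib]
  exact Finset.sum_congr rfl fun _ _ => Finset.sum_add_distrib

theorem sm_succ {K : ℕ} (f : Nd K → ℝ) (N : ℕ) :
    sm (N + 1) f = sm N f + ∑ w ∈ lev K (N + 1), f w := by
  unfold sm
  rw [Finset.sum_range_succ]

theorem sm_le_of_le {K : ℕ} {f : Nd K → ℝ} (h : ∀ w, 0 ≤ f w) {N M : ℕ} (hNM : N ≤ M) :
    sm N f ≤ sm M f :=
  Finset.sum_le_sum_of_subset_of_nonneg (Finset.range_mono (by omega))
    fun _ _ _ => Finset.sum_nonneg fun w _ => h w

theorem sm_nonneg {K : ℕ} {f : Nd K → ℝ} (h : ∀ w, 0 ≤ f w) (N : ℕ) : 0 ≤ sm N f :=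
  Finset.sum_nonneg fun _ _ => Finset.sum_nonneg fun w _ => h w

theorem sm_cont {K : ℕ} {f : Nd K → ℝ → ℝ} {S : Set ℝ} (N : ℕ) (h : ∀ w, ContinuousOn (f w) S) :
    ContinuousOn (fun t => sm N fun w => f w t) S := by
  unfold sm
  exact continuousOn_finsetSum _ fun _ _ => continuousOn_finsetSum _ fun w _ => h w

theorem sol_cont {K : ℕ} {L g k T : ℝ} {F V : Nd K → ℝ → ℝ} (h : Sol L g k T F V) (w : Nd K) :
    ContinuousOn (V w) (Icc 0 T) := fun t ht => (h w t ht).continuousWithinAt

theorem ch_cont {K : ℕ} {V : Nd K → ℝ → ℝ} {S : Set ℝ} (h : ∀ w, ContinuousOn (V w) S)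
    (w : Nd K) : ContinuousOn (ch V w) S := by
  unfold ch
  exact continuousOn_finsetSum _ fun i _ => h _

theorem t_TE0 : P_TEN → P_TE0 := by
  intro hTEN K L g k T EF E F V h hL hg hk hT hF hV hE hEE hEI t ht
  have hL0 : 0 < L := by linarith
  have hg0 : 0 < g := by linarith
  have hgL : 0 < g / L := by positivity
  have cV := sol_cont hV
  have cPE : ∀ N, ContinuousOn (fun r => PE L g V N r) (Icc 0 T) := fun N =>
    sm_cont N fun w => continuousOn_const.mul ((cV w).pow 2)
  have cPD : ∀ N, ContinuousOn (fun r => PD g V N r) (Icc 0 T) := fun N =>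
    sm_cont N fun w => continuousOn_const.mul ((cV w).pow 2)
  have cPF : ∀ N, ContinuousOn (fun r => PF L g F V N r) (Icc 0 T) := fun N =>
    sm_cont N fun w => continuousOn_const.mul ((cV w).mul (hF.cont w))
  have cfl : ∀ N, ContinuousOn (fun r => fl g V N r) (Icc 0 T) := fun N => by
    unfold fl
    exact continuousOn_const.mul (continuousOn_finsetSum _ fun w _ =>
      ((cV w).pow 2).mul (ch_cont cV w))
  rcases ht.1.eq_or_lt with h0 | h0
  · unfold EE
    rw [← h0]
    simp
  -- the upper bound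
  have hup : ∀ ε : ℝ, 0 < ε → ∀ᶠ N in atTop, ∫ r in (0 : ℝ)..t, fl g V N r ≤ ε := by
    intro ε hε
    have hmono : ∀ r, Monotone fun N => PE L g V N r := fun r N M hNM =>
      sm_le_of_le (fun w => by positivity) hNM
    have h0T : (0 : ℝ) ∈ Icc 0 T := ⟨le_rfl, hT.le⟩
    have hbdd : BddAbove (range fun N => PE L g V N 0) := ⟨E, by
      rintro _ ⟨N, rfl⟩
      exact hE N 0 h0T⟩
    obtain ⟨n₀, hn₀⟩ := exists_lt_of_lt_ciSup
      (show (⨆ N, PE L g V N 0) - ε / 4 < ⨆ N, PE L g V N 0 by linarith)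
    have hn1 : ∀ N, PE L g V N 0 ≤ PE L g V n₀ 0 + ε / 4 := fun N => by
      have := le_ciSup hbdd N
      linarith
    -- continuity at zero
    have hc := cPE n₀ 0 h0T
    rw [ContinuousWithinAt, Metric.tendsto_nhdsWithin_nhds] at hc
    obtain ⟨δ, hδ, hδ'⟩ := hc (ε / 4) (by positivity)
    have hE0 : 0 ≤ E := (sm_nonneg (fun w => by positivity) 0).trans (hE 0 0 h0T)
    have hEF0 : 0 ≤ EF := (sm_nonneg (fun w => by positivity) 0).trans (hF.en 0 0 h0T)
    obtain ⟨s, hs0, hst, hsδ, hsE⟩ : ∃ s : ℝ, 0 < s ∧ s ≤ t ∧ s < δ ∧ s * (E + EF) ≤ ε / 4 := by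
      refine ⟨min t (min (δ / 2) (ε / 4 / (E + EF + 1))), ?_, min_le_left _ _, ?_, ?_⟩
      · exact lt_min h0 (lt_min (by positivity) (by positivity))
      · exact lt_of_le_of_lt ((min_le_right _ _).trans (min_le_left _ _)) (by linarith)
      · have h1 : min t (min (δ / 2) (ε / 4 / (E + EF + 1))) ≤ ε / 4 / (E + EF + 1) :=
          (min_le_right _ _).trans (min_le_right _ _)
        calc min t (min (δ / 2) (ε / 4 / (E + EF + 1))) * (E + EF)
            ≤ ε / 4 / (E + EF + 1) * (E + EF) := by gcongr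
          _ ≤ ε / 4 / (E + EF + 1) * (E + EF + 1) :=
              mul_le_mul_of_nonneg_left (by linarith) (by positivity)
          _ = ε / 4 := by field_simp
    have hsT : s ∈ Icc 0 T := ⟨hs0.le, hst.trans ht.2⟩
    have hPEs : PE L g V n₀ 0 - ε / 4 ≤ PE L g V n₀ s := by
      have h1 := hδ' hsT (by rw [Real.dist_eq, sub_zero, abs_of_pos hs0]; exact hsδ)
      rw [Real.dist_eq, abs_lt] at h1
      linarith [h1.1]
    have hst' := hEE s t hs0 hst ht.2
    have h3 : ∀ᶠ N in atTop, ∫ r in s..t, fl g V N r < ε / 8 :=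
      hst'.eventually (gt_mem_nhds (by positivity))
    filter_upwards [h3, eventually_ge_atTop n₀] with N hN1 hN2
    have hten := hTEN K L g k T F V N hL0 hg0 hF.cont (fun w _ => cV w)
      (fun w _ r hr => hV w r hr) 0 s le_rfl hs0.le hsT.2
    have hsub : Icc 0 s ⊆ Icc 0 T := Icc_subset_Icc_right hsT.2
    have hPD : 0 ≤ ∫ r in (0 : ℝ)..s, PD g V N r :=
      intervalIntegral.integral_nonneg hs0.le fun r _ => sm_nonneg (fun w => by positivity) N
    have hPF : 2 * ∫ r in (0 : ℝ)..s, PF L g F V N r ≤ s * (E + EF) := by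
      rw [← intervalIntegral.integral_const_mul]
      have h4 : ∫ r in (0 : ℝ)..s, 2 * PF L g F V N r ≤ ∫ r in (0 : ℝ)..s, (E + EF) := by
        refine intervalIntegral.integral_mono_on hs0.le
          ((((cPF N).mono hsub).intervalIntegrable_of_Icc hs0.le).const_mul 2)
          intervalIntegrable_const fun r hr => ?_
        have h5 : 2 * PF L g F V N r ≤ PE L g V N r + PE L g F N r := by
          unfold PF PE
          rw [← sm_add, sm, sm, Finset.mul_sum]
          refine Finset.sum_le_sum fun n _ => ?_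
          rw [Finset.mul_sum]
          refine Finset.sum_le_sum fun w _ => ?_
          have h6 : 0 < (g / L) ^ w.length := by positivity
          nlinarith [sq_nonneg (V w r - F w r)]
        exact h5.trans (add_le_add (hE N r (hsub hr)) (hF.en N r (hsub hr)))
      rw [intervalIntegral.integral_const, sub_zero, smul_eq_mul] at h4
      exact h4
    have hsplit : (∫ r in (0 : ℝ)..t, fl g V N r)
        = (∫ r in (0 : ℝ)..s, fl g V N r) + ∫ r in s..t, fl g V N r := by
      refine (intervalIntegral.integral_add_adjacent_intervals ?_ ?_).symm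
      · exact ((cfl N).mono hsub).intervalIntegrable_of_Icc hs0.le
      · exact ((cfl N).mono (Icc_subset_Icc hs0.le ht.2)).intervalIntegrable_of_Icc hst
    have h6 := hmono s hN2
    simp only at h6
    have h7 := hn1 N
    have h8 : 0 ≤ 2 * k * ∫ r in (0 : ℝ)..s, PD g V N r := by positivity
    rw [hsplit]
    linarith
  unfold EE
  rw [Metric.tendsto_atTop']
  intro ε hε
  have h1 := (hEI t ht) (ε / 2) (by positivity)
  have h2 := hup (ε / 2) (by positivity)
  obtain ⟨n₁, hn₁⟩ := eventually_atTop.1 (h1.and h2)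
  refine ⟨n₁, fun n hn => ?_⟩
  have h3 := hn₁ n hn.le
  rw [Real.dist_eq, sub_zero, abs_lt]
  constructor <;> linarith [h3.1, h3.2]

end Pool.Agent.Q208.DT
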