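import Pool.Agent.Q208.DT.TE0

/-!
# Project DT of helper186: stability of nonnegative solutions (job TUNI)
-/

set_option autoImplicit false

namespace Pool.Agent.Q208.DT

open Set Filter Topology MeasureTheory Pool.Agent.Q186.DT

theorem ftc {T : ℝ} {f f' : ℝ → ℝ} (hf : ∀ t ∈ Icc 0 T, HasDerivWithinAt f (f' t) (Icc 0 T) t)
    (hc : ContinuousOn f' (Icc 0 T)) {a b : ℝ} (ha : 0 ≤ a) (hab : a ≤ b) (hb : b ≤ T) :
    ∫ s in a..b, f' s = f b - f a := by
  have hsub : Icc a b ⊆ Icc 0 T := Icc_subset_Icc ha hb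
  refine intervalIntegral.integral_eq_sub_of_hasDeriv_right_of_le hab
    (fun s hs => ((hf s (hsub hs)).continuousWithinAt).mono hsub) (fun x hx => ?_) ?_
  · have h1 := hf x (hsub ⟨hx.1.le, hx.2.le⟩)
    have h2 : Icc 0 T ∈ 𝓝 x := Icc_mem_nhds (ha.trans_lt hx.1) (hx.2.trans_le hb)
    exact (h1.hasDerivAt h2).hasDerivWithinAt
  · exact (hc.mono hsub).intervalIntegrable_of_Icc hab

/-- the derivative of the weighted sum of the squares of the differences -/
noncomputable def dpsi {K : ℕ} (L g k : ℝ) (F V W : Nd K → ℝ → ℝ) (N : ℕ) (t : ℝ) : ℝ :=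
  sm N fun w => (g / (2 * L)) ^ w.length * (2 * (V w t - W w t) *
    (vf L g k F V w t - vf L g k F W w t))

theorem psi_deriv {K : ℕ} {L g k T : ℝ} {F V W : Nd K → ℝ → ℝ} (hV : Sol L g k T F V)
    (hW : Sol L g k T F W) (N : ℕ) (t : ℝ) (ht : t ∈ Icc 0 T) :
    HasDerivWithinAt (fun t => sm N fun w => (g / (2 * L)) ^ w.length * (V w t - W w t) ^ 2)
      (dpsi L g k F V W N t) (Icc 0 T) t := by
  unfold sm dpsi sm
  refine HasDerivWithinAt.fun_sum fun n _ => HasDerivWithinAt.fun_sum fun w _ => ?_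
  have h2 := (((hV w t ht).sub (hW w t ht)).pow 2).const_mul ((g / (2 * L)) ^ w.length)
  simpa using h2

theorem vf_cont {K : ℕ} {L g k T : ℝ} {F V : Nd K → ℝ → ℝ} (hF : ∀ w, ContinuousOn (F w) (Icc 0 T))
    (cV : ∀ w, ContinuousOn (V w) (Icc 0 T)) (w : Nd K) :
    ContinuousOn (fun t => vf L g k F V w t) (Icc 0 T) := by
  unfold vf
  have hp : ContinuousOn (fun t => pr V w t) (Icc 0 T) := by
    cases w with
    | nil => exact continuousOn_const
    | cons i u => exact cV u
  exact (continuousOn_const.mul ((hp.pow 2).sub ((cV w).mul ((continuousOn_const.mul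
    (ch_cont cV w)).add continuousOn_const)))).add (hF w)

/-- the boundary term -/
theorem dpsi_eq {K : ℕ} {L g k : ℝ} {F V W : Nd K → ℝ → ℝ} (hL : L ≠ 0) (N : ℕ) (t : ℝ) :
    dpsi L g k F V W N t = - (sm N fun w => (g / 2) ^ w.length * ((V w t - W w t) ^ 2 *
      (g * (ch V w t + ch W w t) + 2 * k)))
      - g * (g / 2) ^ N * ∑ w ∈ lev K N, ∑ i : Fin K,
        ((V w t ^ 2 - W w t ^ 2) * (V (i :: w) t - W (i :: w) t)) := by
  have hw : ∀ w : Nd K, (g / (2 * L)) ^ w.length * (2 * (V w t - W w t) *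
      (vf L g k F V w t - vf L g k F W w t)) =
      (g / 2) ^ w.length * (2 * (V w t - W w t) * (pr V w t ^ 2 - pr W w t ^ 2))
      - (g / 2) ^ w.length * ((V w t - W w t) ^ 2 * (g * (ch V w t + ch W w t) + 2 * k))
      - g * (g / 2) ^ w.length * ∑ i : Fin K,
        ((V w t ^ 2 - W w t ^ 2) * (V (i :: w) t - W (i :: w) t)) := by
    intro w
    have e1 : (g / (2 * L)) ^ w.length * L ^ w.length = (g / 2) ^ w.length := by
      rw [← mul_pow]
      congr 1
      field_simp
    have e2 : ∑ i : Fin K, ((V w t ^ 2 - W w t ^ 2) * (V (i :: w) t - W (i :: w) t))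
        = (V w t ^ 2 - W w t ^ 2) * (ch V w t - ch W w t) := by
      unfold ch
      rw [← Finset.mul_sum, Finset.sum_sub_distrib]
    rw [e2, ← e1]
    unfold vf
    ring
  unfold dpsi
  induction N with
  | zero =>
    unfold sm
    rw [Finset.sum_range_one, Finset.sum_range_one, sum_lev_zero, sum_lev_zero, sum_lev_zero, hw]
    simp
  | succ N ih =>
    rw [sm_succ, sm_succ, ih]
    have h1 : ∑ w ∈ lev K (N + 1), (g / 2) ^ w.length *
        (2 * (V w t - W w t) * (pr V w t ^ 2 - pr W w t ^ 2)) =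
        g * (g / 2) ^ N * ∑ w ∈ lev K N, ∑ i : Fin K,
        ((V w t ^ 2 - W w t ^ 2) * (V (i :: w) t - W (i :: w) t)) := by
      rw [sum_lev_succ, Finset.mul_sum]
      refine Finset.sum_congr rfl fun w hwN => ?_
      rw [Finset.mul_sum]
      refine Finset.sum_congr rfl fun i _ => ?_
      rw [List.length_cons, (mem_lev N w).1 hwN, pr_cons, pr_cons, pow_succ]
      ring
    have h2 : ∑ w ∈ lev K (N + 1), (g / (2 * L)) ^ w.length * (2 * (V w t - W w t) *
      (vf L g k F V w t - vf L g k F W w t)) =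
      (∑ w ∈ lev K (N + 1), (g / 2) ^ w.length *
        (2 * (V w t - W w t) * (pr V w t ^ 2 - pr W w t ^ 2)))
      - (∑ w ∈ lev K (N + 1), (g / 2) ^ w.length * ((V w t - W w t) ^ 2 *
        (g * (ch V w t + ch W w t) + 2 * k)))
      - g * (g / 2) ^ (N + 1) * ∑ w ∈ lev K (N + 1), ∑ i : Fin K,
        ((V w t ^ 2 - W w t ^ 2) * (V (i :: w) t - W (i :: w) t)) := by
      rw [Finset.mul_sum, ← Finset.sum_sub_distrib, ← Finset.sum_sub_distrib]
      refine Finset.sum_congr rfl fun w hwN => ?_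
      rw [hw w, (mem_lev (N + 1) w).1 hwN]
    rw [h2, h1]
    ring

theorem t_TUNI : P_TEN → P_TUNI := by
  intro _ K L g k T M E B F V W hL hg hk hT hF hV hW hVn hWn hM hEV hEW hB N₀ t ht
  have hL0 : 0 < L := by linarith
  have hg0 : 0 < g := by linarith
  have h0T : (0 : ℝ) ∈ Icc 0 T := ⟨le_rfl, hT.le⟩
  have hM0 : 0 ≤ M := (hVn [] 0 h0T).trans (hM [] 0 h0T)
  have cV := sol_cont hV
  have cW := sol_cont hW
  have cPD : ∀ V : Nd K → ℝ → ℝ, (∀ w, ContinuousOn (V w) (Icc 0 T)) → ∀ N,
      ContinuousOn (fun r => PD g V N r) (Icc 0 T) := fun V cV N =>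
    sm_cont N fun w => continuousOn_const.mul ((cV w).pow 2)
  have pdn : ∀ (V : Nd K → ℝ → ℝ) (N : ℕ) (r : ℝ), 0 ≤ PD g V N r := fun V N r =>
    sm_nonneg (fun w => by positivity) N
  have lvle : ∀ (V : Nd K → ℝ → ℝ) (N : ℕ) (r : ℝ),
      g ^ N * ∑ w ∈ lev K N, V w r ^ 2 ≤ PD g V N r := by
    intro V N r
    unfold PD sm
    have h1 : g ^ N * ∑ w ∈ lev K N, V w r ^ 2 = ∑ w ∈ lev K N, g ^ w.length * V w r ^ 2 := by
      rw [Finset.mul_sum]
      exact Finset.sum_congr rfl fun w hw => by rw [(mem_lev N w).1 hw]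
    rw [h1]
    exact Finset.single_le_sum (f := fun n => ∑ w ∈ lev K n, g ^ w.length * V w r ^ 2)
      (fun n _ => Finset.sum_nonneg fun w _ => by positivity)
      (Finset.mem_range.2 (Nat.lt_succ_self N))
  set C : ℝ := g * M * ((2 * K + 1) * E) with hC
  have key : ∀ N, (sm N fun w => (g / (2 * L)) ^ w.length * (V w t - W w t) ^ 2) ≤
      B + C * (1 / 2) ^ N := by
    intro N
    have hdc : ContinuousOn (dpsi L g k F V W N) (Icc 0 T) := by
      refine sm_cont N fun w => continuousOn_const.mul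
        ((continuousOn_const.mul ((cV w).sub (cW w))).mul
          ((vf_cont hF cV w).sub (vf_cont hF cW w)))
    have hFt := ftc (fun s hs => psi_deriv hV hW N s hs) hdc le_rfl ht.1 ht.2
    -- the upper bound of the derivative
    have hup : ∀ s ∈ Icc 0 T, dpsi L g k F V W N s ≤ g * (1 / 2) ^ N * M *
        (K * PD g V N s + K * PD g W N s + PD g W (N + 1) s) := by
      intro s hs
      rw [dpsi_eq hL0.ne']
      have h1 : 0 ≤ sm N fun w => (g / 2) ^ w.length * ((V w s - W w s) ^ 2 *
          (g * (ch V w s + ch W w s) + 2 * k)) := by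
        refine sm_nonneg (fun w => ?_) N
        have c1 : 0 ≤ ch V w s := Finset.sum_nonneg fun i _ => hVn _ s hs
        have c2 : 0 ≤ ch W w s := Finset.sum_nonneg fun i _ => hWn _ s hs
        positivity
      have h2 : -(∑ w ∈ lev K N, ∑ i : Fin K,
          ((V w s ^ 2 - W w s ^ 2) * (V (i :: w) s - W (i :: w) s))) ≤
          M * (K * ∑ w ∈ lev K N, V w s ^ 2) + M * (K * ∑ w ∈ lev K N, W w s ^ 2) +
            M * ∑ w ∈ lev K (N + 1), W w s ^ 2 := by
        have e0 : M * (K * ∑ w ∈ lev K N, V w s ^ 2) + M * (K * ∑ w ∈ lev K N, W w s ^ 2) +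
            M * ∑ w ∈ lev K (N + 1), W w s ^ 2 = ∑ w ∈ lev K N, ∑ i : Fin K,
            M * (V w s ^ 2 + W w s ^ 2 + W (i :: w) s ^ 2) := by
          rw [sum_lev_succ]
          simp only [← Finset.mul_sum, Finset.sum_add_distrib, Finset.sum_const, Finset.card_univ,
            Fintype.card_fin, nsmul_eq_mul]
          ring
        rw [e0, ← Finset.sum_neg_distrib]
        refine Finset.sum_le_sum fun w _ => ?_
        rw [← Finset.sum_neg_distrib]
        refine Finset.sum_le_sum fun i _ => ?_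
        have a1 := hVn w s hs
        have a2 := hVn (i :: w) s hs
        have a3 := hWn w s hs
        have a4 := hWn (i :: w) s hs
        have b1 := hM w s hs
        have b2 := hM (i :: w) s hs
        generalize V w s = x at *
        generalize V (i :: w) s = x' at *
        generalize W w s = y at *
        generalize W (i :: w) s = y' at *
        have d1 : x ^ 2 * y' ≤ M * (x ^ 2 + y' ^ 2) := by
          have e1 : x ^ 2 * y' ≤ M * (x * y') := by
            have : 0 ≤ x * y' := mul_nonneg a1 a4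
            nlinarith
          have e2 : x * y' ≤ x ^ 2 + y' ^ 2 := by
            nlinarith [sq_nonneg (x - y'), mul_nonneg a1 a4]
          exact e1.trans (mul_le_mul_of_nonneg_left e2 hM0)
        have d2 : y ^ 2 * x' ≤ M * y ^ 2 := by
          have := mul_le_mul_of_nonneg_left b2 (sq_nonneg y)
          linarith
        have d3 : 0 ≤ x ^ 2 * x' := by positivity
        have d4 : 0 ≤ y ^ 2 * y' := by positivity
        linarith
      have h3 : 0 ≤ g * (g / 2) ^ N := by positivity
      have h4 := mul_le_mul_of_nonneg_left h2 h3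
      have l1 := lvle V N s
      have l2 := lvle W N s
      have l3 := lvle W (N + 1) s
      have e2 : g ^ N ≤ g ^ (N + 1) := pow_le_pow_right₀ hg (Nat.le_succ N)
      have n3 : 0 ≤ ∑ w ∈ lev K (N + 1), W w s ^ 2 := Finset.sum_nonneg fun w _ => sq_nonneg _
      have l4 : g ^ N * ∑ w ∈ lev K (N + 1), W w s ^ 2 ≤ PD g W (N + 1) s :=
        (mul_le_mul_of_nonneg_right e2 n3).trans l3
      have h5 : g * (g / 2) ^ N * (M * (K * ∑ w ∈ lev K N, V w s ^ 2) +
          M * (K * ∑ w ∈ lev K N, W w s ^ 2) + M * ∑ w ∈ lev K (N + 1), W w s ^ 2) ≤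
          g * (1 / 2) ^ N * M * (K * PD g V N s + K * PD g W N s + PD g W (N + 1) s) := by
        have e1 : (g / 2) ^ N = (1 / 2) ^ N * g ^ N := by
          rw [← mul_pow]; congr 1; ring
        have e4 : 0 ≤ g * (1 / 2) ^ N * M := by positivity
        rw [e1]
        have hK0 : (0 : ℝ) ≤ K := by positivity
        have := mul_le_mul_of_nonneg_left (show K * (g ^ N * ∑ w ∈ lev K N, V w s ^ 2) +
          K * (g ^ N * ∑ w ∈ lev K N, W w s ^ 2) + g ^ N * ∑ w ∈ lev K (N + 1), W w s ^ 2 ≤
          K * PD g V N s + K * PD g W N s + PD g W (N + 1) s by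
            have q1 := mul_le_mul_of_nonneg_left l1 hK0
            have q2 := mul_le_mul_of_nonneg_left l2 hK0
            linarith) e4
        refine le_trans (le_of_eq ?_) this
        ring
      linarith
    have hsub : Icc 0 t ⊆ Icc (0 : ℝ) T := Icc_subset_Icc_right ht.2
    have hii : ∀ V : Nd K → ℝ → ℝ, (∀ w, ContinuousOn (V w) (Icc 0 T)) → ∀ N,
        IntervalIntegrable (fun r => PD g V N r) volume 0 t := fun V cV N =>
      ((cPD V cV N).mono hsub).intervalIntegrable_of_Icc ht.1
    have hle : ∀ V : Nd K → ℝ → ℝ, (∀ w, ContinuousOn (V w) (Icc 0 T)) →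
        (∀ N, (∫ t in (0:ℝ)..T, PD g V N t) ≤ E) → ∀ N, ∫ r in (0 : ℝ)..t, PD g V N r ≤ E := by
      intro V cV hE N
      refine le_trans ?_ (hE N)
      have h1 : ∫ r in (0 : ℝ)..T, PD g V N r
          = (∫ r in (0 : ℝ)..t, PD g V N r) + ∫ r in t..T, PD g V N r := by
        refine (intervalIntegral.integral_add_adjacent_intervals (hii V cV N) ?_).symm
        exact ((cPD V cV N).mono (Icc_subset_Icc_left ht.1)).intervalIntegrable_of_Icc ht.2
      have h2 : 0 ≤ ∫ r in t..T, PD g V N r :=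
        intervalIntegral.integral_nonneg ht.2 fun r _ => pdn V N r
      linarith
    have i1 := (hii V cV N).const_mul (K : ℝ)
    have i2 := (hii W cW N).const_mul (K : ℝ)
    have i3 := hii W cW (N + 1)
    have h1 : ∫ s in (0:ℝ)..t, dpsi L g k F V W N s ≤ ∫ s in (0:ℝ)..t, g * (1 / 2) ^ N * M *
        (K * PD g V N s + K * PD g W N s + PD g W (N + 1) s) :=
      intervalIntegral.integral_mono_on ht.1 ((hdc.mono hsub).intervalIntegrable_of_Icc ht.1)
        (((i1.add i2).add i3).const_mul _) fun s hs => hup s (hsub hs)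
    rw [intervalIntegral.integral_const_mul, intervalIntegral.integral_add (i1.add i2) i3,
      intervalIntegral.integral_add i1 i2, intervalIntegral.integral_const_mul,
      intervalIntegral.integral_const_mul] at h1
    have t1 := hle V cV hEV N
    have t2 := hle W cW hEW (N + 1)
    have t3 := hle W cW hEW N
    have hK0 : (0 : ℝ) ≤ K := by positivity
    have h2 : g * (1 / 2) ^ N * M * (K * (∫ s in (0:ℝ)..t, PD g V N s) +
        K * (∫ s in (0:ℝ)..t, PD g W N s) + ∫ s in (0:ℝ)..t, PD g W (N + 1) s) ≤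
        g * (1 / 2) ^ N * M * ((2 * K + 1) * E) := by
      refine mul_le_mul_of_nonneg_left ?_ (by positivity)
      have q1 := mul_le_mul_of_nonneg_left t1 hK0
      have q2 := mul_le_mul_of_nonneg_left t3 hK0
      linarith
    have h3 := hB N
    rw [hFt] at h1
    have h4 : g * (1 / 2) ^ N * M * ((2 * K + 1) * E) = C * (1 / 2) ^ N := by
      rw [hC]; ring
    rw [h4] at h2
    have h5 := h1.trans h2
    linarith
  have hlim : Tendsto (fun N : ℕ => B + C * (1 / 2 : ℝ) ^ N) atTop (𝓝 (B + C * 0)) :=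
    tendsto_const_nhds.add (tendsto_const_nhds.mul
      (tendsto_pow_atTop_nhds_zero_of_lt_one (by norm_num) (by norm_num)))
  rw [mul_zero, add_zero] at hlim
  refine ge_of_tendsto hlim ?_
  filter_upwards [eventually_ge_atTop N₀] with N hN
  exact (sm_le_of_le (fun w => by positivity) hN).trans (key N)

end Pool.Agent.Q208.DT
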